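import Pool.Agent.H25.Sturm

open Pool.Agent.H25.Sturm

namespace Pool.Agent.Results.MP_9b64ae_co.Six

/-- the operation `S`. -/
def S (u : ℕ → ℕ) (n : ℕ) : ℕ := (u n + u (n + 1)) % 2

/-- number of distinct palindromic factors, the empty word included. -/
noncomputable def pals (w : List ℕ) : ℕ := {x : List ℕ | x <:+: w ∧ x.reverse = x}.ncard

lemma pals_eq (w : List ℕ) :
    pals w = ((w.tails.flatMap List.inits).toFinset.filter fun x => x.reverse = x).card := by
  unfold pals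
  rw [← Set.ncard_coe_finset]
  congr 1
  ext x
  simp [List.infix_iff_prefix_suffix, and_comm]

lemma fl (i : ℕ) : ⌊(i : ℝ) * (√2 - 1)⌋ = Nat.sqrt (i * i * 2) - i := by
  rw [← Real.floor_real_sqrt_eq_nat_sqrt, ← Int.floor_sub_natCast]
  congr 1
  push_cast
  rw [Real.sqrt_mul (by positivity), Real.sqrt_mul_self (by positivity)]
  ring

lemma mech_eq : mech (√2 - 1) = fun i =>
    ((Nat.sqrt ((i + 1) * (i + 1) * 2) : ℤ) - (i + 1 : ℕ) - (Nat.sqrt (i * i * 2) - i)).toNat := by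
  ext i
  rw [mech, fl, fl]

theorem result : ∃ u : ℕ → ℕ, Sturmian u ∧
    factor (S^[6] u) 4 9 = [1, 0, 1, 0, 0, 1, 1, 0, 1] ∧ pals (factor (S^[6] u) 4 9) = 9 := by
  have h : factor (S^[6] (mech (√2 - 1))) 4 9 = [1, 0, 1, 0, 0, 1, 1, 0, 1] := by
    rw [mech_eq]; decide +kernel
  refine ⟨mech (√2 - 1), sturmian (by simpa using irrational_sqrt_two.sub_natCast 1) ?_ ?_, h, ?_⟩
  · linarith [Real.one_lt_sqrt_two]
  · linarith [Real.sqrt_two_lt_three_halves]
  · rw [h, pals_eq]; decide +kernel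

end Pool.Agent.Results.MP_9b64ae_co.Six
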